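import Pool.Agent.H16Z.FC.Final

set_option autoImplicit false

open Pool.Agent.H16Z.FC

/-- For every prime `p` there is a two-dimensional Buchsbaum Noetherian local domain of
characteristic `p` with a Frobenius closed parameter ideal `I` such that `I^[p]` is not Frobenius
closed. -/
theorem Pool.Agent.Results.MP_a45f4e_ag.ABuchsbaumDomain.result (p : ℕ) (hp : p.Prime) :
    ∃ (R : Type) (_ : CommRing R) (_ : IsDomain R) (_ : IsLocalRing R) (_ : IsNoetherianRing R)
      (_ : CharP R p), IsBuchsbaum R ∧ ∃ x : Fin 2 → R, IsSOP x ∧
        FrobClosed p (Ideal.span (Set.range x)) ∧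
        ¬ FrobClosed p (frobPow p (Ideal.span (Set.range x))) :=
  final p hp
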